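import Mathlib.SetTheory.Cardinal.Aleph
import Mathlib.Topology.MetricSpace.Pseudo.Defs

namespace Pool.Agent.MP_b60a07_lc

/-- The semi-open colouring principle of Abraham, Rubin and Shelah, for sets of reals. -/
def SOCA : Prop :=
  ∀ X : Set ℝ, ¬ X.Countable → ∀ G : Set (ℝ × ℝ), IsOpen G →
    (∀ x y, (x, y) ∈ G → (y, x) ∈ G) →
    ∃ H ⊆ X, ¬ H.Countable ∧
      (H.Pairwise (fun x y => (x, y) ∈ G) ∨ H.Pairwise (fun x y => (x, y) ∉ G))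

/-- Martin's principle for at most aleph one dense sets. -/
def MA1 : Prop :=
  ∀ (P : Type) [Preorder P] [Nonempty P],
    (∀ A : Set P, A.Pairwise (fun p q => ¬ ∃ r, r ≤ p ∧ r ≤ q) → A.Countable) →
    ∀ 𝒟 : Set (Set P), Cardinal.mk 𝒟 ≤ Cardinal.aleph 1 →
      (∀ D ∈ 𝒟, ∀ p, ∃ q ∈ D, q ≤ p) →
      ∃ G : Set P, G.Nonempty ∧ (∀ p ∈ G, ∀ q, p ≤ q → q ∈ G) ∧
        (∀ p ∈ G, ∀ q ∈ G, ∃ r ∈ G, r ≤ p ∧ r ≤ q) ∧ ∀ D ∈ 𝒟, (G ∩ D).Nonempty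

/-- Functions of the first Baire class. -/
def Baire1 {X : Type} [TopologicalSpace X] (f : X → ℝ) : Prop :=
  ∃ u : ℕ → X → ℝ, (∀ n, Continuous (u n)) ∧
    ∀ x, Filter.Tendsto (fun n => u n x) Filter.atTop (nhds (f x))

end Pool.Agent.MP_b60a07_lc
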