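import Mathlib.Tactic.Monotonicity.Lemmas
import Mathlib.Algebra.Order.Ring.Star
import Mathlib.MeasureTheory.Constructions.Polish.Basic
import Mathlib.Topology.AlexandrovDiscrete
import Mathlib.Analysis.SpecialFunctions.Log.ENNRealLogExp
import Mathlib.Topology.Compactness.Paracompact
import Mathlib.Topology.Baire.LocallyCompactRegular
import Mathlib.Order.CompletePartialOrder
import Mathlib.SetTheory.Ordinal.Rank
import Mathlib.Topology.ContinuousMap.SecondCountableSpace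
import Mathlib.Topology.UniformSpace.Uniformizable
import Pool.Agent.MP_b60a07_lc.Defs

-- ======== part 0: formerly Pool.Agent.MP_b60a07_lc.Core
section MrgPart0

open Set Filter Topology

namespace Pool.Agent.MP_b60a07_lc

abbrev O : Type := (Cardinal.aleph 1).ord.ToType

theorem O_Iio (i : O) : (Iio i).Countable := by
  have h : Cardinal.mk (Iio i) < Cardinal.aleph 1 := by
    simpa using Cardinal.mk_Iio_lt i (by simp)
  rw [← Cardinal.le_aleph0_iff_set_countable]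
  exact Order.lt_succ_iff.1 (h.trans_eq Cardinal.succ_aleph0.symm)

theorem O_Iic (i : O) : (Iic i).Countable := by
  rw [← Iio_insert]
  exact (O_Iio i).insert i

theorem O_mk : Cardinal.mk O = Cardinal.aleph 1 := Cardinal.mk_ord_toType _

theorem O_unc : ¬ (univ : Set O).Countable := by
  rw [← Cardinal.le_aleph0_iff_set_countable, Cardinal.mk_univ, O_mk, not_le]
  exact Cardinal.aleph0_lt_aleph_one

theorem O_bound {S J : Set O} (hS : S.Countable) (hJ : ¬ J.Countable) :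
    ∃ j ∈ J, ∀ i ∈ S, i < j := by
  by_contra h
  push Not at h
  apply hJ
  refine (hS.biUnion (fun i _ => O_Iic i)).mono fun j hj => ?_
  obtain ⟨i, hi, hij⟩ := h j hj
  exact mem_biUnion hi hij

theorem O_emb : ∃ z : O → ℝ, Function.Injective z := by
  have : Cardinal.mk O ≤ Cardinal.mk ℝ := by
    rw [O_mk, Cardinal.mk_real]
    exact Cardinal.aleph_one_le_continuum
  obtain ⟨e⟩ := this
  exact ⟨e, e.injective⟩

theorem O_rec {T : Type*} (R : Set T → T → Prop) (h : ∀ S : Set T, S.Countable → ∃ t, R S t) :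
    ∃ t : O → T, ∀ i, R (t '' Iio i) (t i) := by
  classical
  choose f hf using h
  let F : ∀ i : O, (∀ j, j < i → T) → T := fun i g =>
    f (range fun j : Iio i => g j.1 j.2) (by
      have := (O_Iio i).to_subtype
      exact countable_range _)
  let t : O → T := (wellFounded_lt (α := O)).fix F
  refine ⟨t, fun i => ?_⟩
  have h1 : t i = F i (fun j _ => t j) := WellFounded.fix_eq _ F i
  have h2 : t '' Iio i = range fun j : Iio i => t j.1 := image_eq_range _ _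
  rw [h2, h1]
  exact hf _ _

theorem unc_fiber {ι κ : Type*} [Countable κ] {I : Set ι} (hI : ¬ I.Countable)
    (R : ι → κ → Prop) (h : ∀ i ∈ I, ∃ k, R i k) :
    ∃ k, ¬ {i ∈ I | R i k}.Countable := by
  by_contra hc
  push Not at hc
  apply hI
  refine (countable_iUnion hc).mono fun i hi => ?_
  obtain ⟨k, hk⟩ := h i hi
  exact mem_iUnion.2 ⟨k, hi, hk⟩

theorem soca_cantor (hS : SOCA) (X : Set (ℕ → Bool)) (hX : ¬ X.Countable)
    (G : Set ((ℕ → Bool) × (ℕ → Bool))) (hG : IsOpen G)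
    (hs : ∀ x y, (x, y) ∈ G → (y, x) ∈ G) :
    ∃ H ⊆ X, ¬ H.Countable ∧
      (H.Pairwise (fun x y => (x, y) ∈ G) ∨ H.Pairwise (fun x y => (x, y) ∉ G)) := by
  obtain ⟨e, -, hec, hei⟩ := (isClosed_univ (X := ℝ)).exists_nat_bool_injection_of_not_countable
    Cardinal.not_countable_real
  have hemb : IsInducing (Prod.map e e) :=
    ((hec.isClosedEmbedding hei).isInducing).prodMap (hec.isClosedEmbedding hei).isInducing
  obtain ⟨G', hG', hGG⟩ := hemb.isOpen_iff.1 hG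
  have hmem : ∀ x y, (e x, e y) ∈ G' ↔ (x, y) ∈ G := fun x y => by
    rw [← hGG]; rfl
  have hX' : ¬ (e '' X).Countable := fun h => hX (countable_of_injective_of_countable_image
    hei.injOn h)
  obtain ⟨H, hHX, hH, hor⟩ := hS (e '' X) hX' (G' ∪ Prod.swap ⁻¹' G')
    (hG'.union (hG'.preimage continuous_swap)) (fun x y h => h.symm)
  have hmem' : ∀ x y, (e x, e y) ∈ G' ∪ Prod.swap ⁻¹' G' ↔ (x, y) ∈ G := fun x y => by
    constructor
    · rintro (h | h)
      · exact (hmem _ _).1 h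
      · exact hs _ _ ((hmem _ _).1 h)
    · exact fun h => Or.inl ((hmem _ _).2 h)
  refine ⟨e ⁻¹' H, fun x hx => ?_, fun h => hH ?_, ?_⟩
  · obtain ⟨y, hy, hxy⟩ := hHX hx
    exact hei hxy ▸ hy
  · refine (h.image e).mono fun y hy => ?_
    obtain ⟨x, -, rfl⟩ := hHX hy
    exact ⟨x, hy, rfl⟩
  · rcases hor with h | h
    · exact Or.inl fun x hx y hy hne => (hmem' _ _).1 (h hx hy (hei.ne hne))
    · exact Or.inr fun x hx y hy hne hh => h hx hy (hei.ne hne) ((hmem' _ _).2 hh)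

theorem so (hS : SOCA) {ι κ : Type*} [Countable κ] (z : ι → ℝ) (hz : Function.Injective z)
    {I : Set ι} (hI : ¬ I.Countable) (P Q : κ → Set ι) :
    ∃ J ⊆ I, ¬ J.Countable ∧
      ((∀ i ∈ J, ∀ j ∈ J, z i < z j → ∃ k, i ∈ P k ∧ j ∈ Q k) ∨
        (∀ i ∈ J, ∀ j ∈ J, z i < z j → ∀ k, ¬ (i ∈ P k ∧ j ∈ Q k))) := by
  classical
  obtain ⟨n, hn⟩ := exists_injective_nat (κ ⊕ κ ⊕ ℚ)
  let W : κ ⊕ κ ⊕ ℚ → Set ι := Sum.elim P (Sum.elim Q fun q => {i | z i < q})
  let c : ι → ℕ → Bool := fun i => Function.extend n (fun t => decide (i ∈ W t)) fun _ => false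
  have hc : ∀ i t, c i (n t) = true ↔ i ∈ W t := fun i t => by
    simp only [c, hn.extend_apply, decide_eq_true_eq]
  have hci : Function.Injective c := by
    intro i j hij
    apply hz
    have key : ∀ i j, c i = c j → ¬ z i < z j := fun i j hij hlt => by
      obtain ⟨q, h1, h2⟩ := exists_rat_btwn hlt
      have h3 : c i (n (Sum.inr (Sum.inr q))) = true := (hc _ _).2 h1
      rw [hij] at h3
      exact lt_asymm h2 ((hc _ _).1 h3)
    exact le_antisymm (not_lt.1 (key _ _ hij.symm)) (not_lt.1 (key _ _ hij))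
  let G0 : Set ((ℕ → Bool) × (ℕ → Bool)) := ⋃ k : κ, ⋃ q : ℚ,
    {p | p.1 (n (Sum.inl k)) = true ∧ p.2 (n (Sum.inr (Sum.inl k))) = true ∧
      p.1 (n (Sum.inr (Sum.inr q))) = true ∧ p.2 (n (Sum.inr (Sum.inr q))) = false}
  have hop : ∀ (m : ℕ) (b : Bool), IsOpen {u : ℕ → Bool | u m = b} := fun m b =>
    (isOpen_discrete ({b} : Set Bool)).preimage (continuous_apply (A := fun _ : ℕ => Bool) m)
  have hG0 : IsOpen G0 := isOpen_iUnion fun k => isOpen_iUnion fun q =>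
    ((hop _ _).preimage continuous_fst).inter (((hop _ _).preimage continuous_snd).inter
      (((hop _ _).preimage continuous_fst).inter ((hop _ _).preimage continuous_snd)))
  have hG0m : ∀ i j, (c i, c j) ∈ G0 ↔ z i < z j ∧ ∃ k, i ∈ P k ∧ j ∈ Q k := fun i j => by
    simp only [G0, mem_iUnion, mem_ofPred_eq, ← Bool.not_eq_true, hc]
    constructor
    · rintro ⟨k, q, h1, h2, h3, h4⟩
      exact ⟨lt_of_lt_of_le h3 (not_lt.1 h4), k, h1, h2⟩
    · rintro ⟨hlt, k, h1, h2⟩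
      obtain ⟨q, h3, h4⟩ := exists_rat_btwn hlt
      exact ⟨k, q, h1, h2, h3, not_lt.2 h4.le⟩
  have hX' : ¬ (c '' I).Countable := fun h => hI (countable_of_injective_of_countable_image
    hci.injOn h)
  obtain ⟨H, hHX, hH, hor⟩ := soca_cantor hS (c '' I) hX' (G0 ∪ Prod.swap ⁻¹' G0)
    (hG0.union (hG0.preimage continuous_swap)) (fun x y h => h.symm)
  refine ⟨c ⁻¹' H, fun x hx => ?_, fun h => hH ?_, ?_⟩
  · obtain ⟨y, hy, hxy⟩ := hHX hx
    exact hci hxy ▸ hy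
  · refine (h.image c).mono fun y hy => ?_
    obtain ⟨x, -, rfl⟩ := hHX hy
    exact ⟨x, hy, rfl⟩
  · rcases hor with h | h
    · refine Or.inl fun i hi j hj hlt => ?_
      have hne : i ≠ j := fun e => lt_irrefl _ (e ▸ hlt)
      rcases h hi hj (hci.ne hne) with h' | h'
      · exact ((hG0m _ _).1 h').2
      · exact absurd ((hG0m _ _).1 h').1 (lt_asymm hlt)
    · refine Or.inr fun i hi j hj hlt k hk => ?_
      have hne : i ≠ j := fun e => lt_irrefl _ (e ▸ hlt)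
      exact h hi hj (hci.ne hne) (Or.inl ((hG0m _ _).2 ⟨hlt, k, hk⟩))

end Pool.Agent.MP_b60a07_lc

end MrgPart0

-- ======== part 1: formerly Pool.Agent.MP_b60a07_lc.Can
section MrgPart1

open Set Filter Topology

namespace Pool.Agent.MP_b60a07_lc

def Side (a b : ℝ) : Bool → ℝ → Prop
  | true, t => a < t
  | false, t => t < b

theorem Side.mono {a b a' b' t : ℝ} {s : Bool} (h : Side a b s t) (ha : a' ≤ a) (hb : b ≤ b') :
    Side a' b' s t := by
  cases s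
  · exact lt_of_lt_of_le h hb
  · exact lt_of_le_of_lt ha h

variable {K : Type*} [TopologicalSpace K] {B A : Type*}

/-- every sequence from the rectangle can be canonized -/
def Can (g : B → C(K, ℝ)) (x : A → K) (a b : ℝ) (U : Set B) (V : Set A) : Prop :=
  ∀ z : O → ℝ, Function.Injective z → ∀ I : Set O, ¬ I.Countable → ∀ (β : O → B) (α : O → A),
    (∀ i ∈ I, β i ∈ U) → (∀ i ∈ I, α i ∈ V) →
    ∃ J ⊆ I, ¬ J.Countable ∧ ∃ s, ∀ i ∈ J, ∀ j ∈ J, z i < z j → Side a b s (g (β i) (x (α j)))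

theorem nb [CompactSpace K] (g : B → C(K, ℝ)) {U0 : Set B} (h0 : U0.Countable) :
    ∃ W : ℕ → Set K, ∀ (p : K) (C : Set K), IsClosed C →
      (∀ y ∈ C, ¬ ∀ γ ∈ U0, g γ y = g γ p) → ∃ m, p ∈ W m ∧ Disjoint (W m) C := by
  have := h0.to_subtype
  let π : K → (U0 → ℝ) := fun y γ => g γ y
  have hπ : Continuous π := continuous_pi fun γ => (g γ).continuous
  obtain ⟨b, hbc, -, hb⟩ := TopologicalSpace.exists_countable_basis (U0 → ℝ)
  obtain ⟨e, he⟩ := (hbc.insert ∅).exists_eq_range (insert_nonempty _ _)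
  refine ⟨fun m => π ⁻¹' e m, fun p C hC hp => ?_⟩
  have hcl : IsClosed (π '' C) := (hC.isCompact.image hπ).isClosed
  have hpn : π p ∈ (π '' C)ᶜ := by
    rintro ⟨y, hy, hyp⟩
    exact hp y hy fun γ hγ => congrFun hyp ⟨γ, hγ⟩
  obtain ⟨v, hv, hpv, hvC⟩ := hb.exists_subset_of_mem_open hpn hcl.isOpen_compl
  obtain ⟨m, rfl⟩ : v ∈ range e := he ▸ mem_insert_of_mem _ hv
  exact ⟨m, hpv, disjoint_left.2 fun y hy hyC => hvC hy ⟨y, hyC, rfl⟩⟩

def Ex (a b : ℝ) : Bool → Set ℝ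
  | true => Iio a
  | false => Ioi b

theorem Ex_open (a b : ℝ) (s : Bool) : IsOpen (Ex a b s) := by
  cases s
  · exact isOpen_Ioi
  · exact isOpen_Iio

theorem Side.not_ex {a b t : ℝ} {s : Bool} (h : Side a b s t) : t ∉ Ex a b s := by
  cases s
  · exact lt_asymm h
  · exact lt_asymm h

theorem triangle [HereditarilyLindelofSpace K] {g : B → C(K, ℝ)} {x : A → K} {a b : ℝ}
    {U : Set B} {V : Set A} (h : Can g x a b U V) :
    ∃ U0 : Set B, U0.Countable ∧ ∀ α ∈ V, ∀ β ∈ U, ∀ β0 ∈ U, ∀ y v : K,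
      (∀ γ ∈ U0, g γ y = g γ (x α)) → (∀ γ ∈ U0, g γ v = g γ (x α)) →
      g β (x α) < a → b < g β y → g β0 (x α) < a → g β0 y < a → b < g β0 v → False := by
  by_contra hc
  push Not at hc
  obtain ⟨t, ht⟩ := O_rec (T := A × B × B × K × K) (fun S t =>
      t.1 ∈ V ∧ t.2.1 ∈ U ∧ t.2.2.1 ∈ U ∧
      (∀ γ ∈ (fun t => t.2.1) '' S ∪ (fun t => t.2.2.1) '' S, g γ t.2.2.2.1 = g γ (x t.1)) ∧
      (∀ γ ∈ (fun t => t.2.1) '' S ∪ (fun t => t.2.2.1) '' S, g γ t.2.2.2.2 = g γ (x t.1)) ∧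
      g t.2.1 (x t.1) < a ∧ b < g t.2.1 t.2.2.2.1 ∧ g t.2.2.1 (x t.1) < a ∧
      g t.2.2.1 t.2.2.2.1 < a ∧ b < g t.2.2.1 t.2.2.2.2) (fun S hS => by
    obtain ⟨α, hα, β, hβ, β0, hβ0, y, v, h1, h2, h3, h4, h5, h6, h7, -⟩ :=
      hc _ ((hS.image fun t => t.2.1).union (hS.image fun t => t.2.2.1))
    exact ⟨(α, β, β0, y, v), hα, hβ, hβ0, h1, h2, h3, h4, h5, h6, h7⟩)
  obtain ⟨z, hz⟩ := O_emb
  have hz' : Function.Injective fun i => - z i := fun i j e => hz (neg_injective e)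
  obtain ⟨J1, -, u1, s1, c1⟩ := h z hz univ O_unc (fun i => (t i).2.1) (fun i => (t i).1)
    (fun i _ => (ht i).2.1) (fun i _ => (ht i).1)
  obtain ⟨J2, k2, u2, s0, c2⟩ := h z hz J1 u1 (fun i => (t i).2.2.1) (fun i => (t i).1)
    (fun i _ => (ht i).2.2.1) (fun i _ => (ht i).1)
  obtain ⟨J3, k3, u3, r1, c3⟩ := h _ hz' J2 u2 (fun i => (t i).2.1) (fun i => (t i).1)
    (fun i _ => (ht i).2.1) (fun i _ => (ht i).1)
  obtain ⟨J, k4, u4, r0, c4⟩ := h _ hz' J3 u3 (fun i => (t i).2.2.1) (fun i => (t i).1)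
    (fun i _ => (ht i).2.2.1) (fun i _ => (ht i).1)
  let E : Bool → Bool → O → Set K := fun s s' i =>
    g (t i).2.1 ⁻¹' Ex a b s ∪ g (t i).2.2.1 ⁻¹' Ex a b s'
  have hE : ∀ s s' i, IsOpen (E s s' i) := fun s s' i =>
    ((Ex_open a b s).preimage (g _).continuous).union ((Ex_open a b s').preimage (g _).continuous)
  have hw : ∀ i, ∃ w ∈ E s1 s0 i ∩ E r1 r0 i, ∀ j < i,
      g (t j).2.1 w = g (t j).2.1 (x (t i).1) ∧ g (t j).2.2.1 w = g (t j).2.2.1 (x (t i).1) := by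
    intro i
    obtain ⟨-, -, -, h1, h2, h3, h4, h5, h6, h7⟩ := ht i
    have ax : ∀ j < i, g (t j).2.1 (x (t i).1) = g (t j).2.1 (x (t i).1) ∧
      g (t j).2.2.1 (x (t i).1) = g (t j).2.2.1 (x (t i).1) := fun _ _ => ⟨rfl, rfl⟩
    have ay : ∀ j < i, g (t j).2.1 (t i).2.2.2.1 = g (t j).2.1 (x (t i).1) ∧
      g (t j).2.2.1 (t i).2.2.2.1 = g (t j).2.2.1 (x (t i).1) := fun j hj =>
      ⟨h1 _ (Or.inl ⟨_, ⟨j, hj, rfl⟩, rfl⟩), h1 _ (Or.inr ⟨_, ⟨j, hj, rfl⟩, rfl⟩)⟩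
    have av : ∀ j < i, g (t j).2.1 (t i).2.2.2.2 = g (t j).2.1 (x (t i).1) ∧
      g (t j).2.2.1 (t i).2.2.2.2 = g (t j).2.2.1 (x (t i).1) := fun j hj =>
      ⟨h2 _ (Or.inl ⟨_, ⟨j, hj, rfl⟩, rfl⟩), h2 _ (Or.inr ⟨_, ⟨j, hj, rfl⟩, rfl⟩)⟩
    have x1 : ∀ s, x (t i).1 ∈ E s true i := fun s => Or.inr h5
    have x2 : ∀ s, x (t i).1 ∈ E true s i := fun s => Or.inl h3
    have y1 : ∀ s, (t i).2.2.2.1 ∈ E s true i := fun s => Or.inr h6
    have y2 : ∀ s, (t i).2.2.2.1 ∈ E false s i := fun s => Or.inl h4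
    have v1 : ∀ s, (t i).2.2.2.2 ∈ E s false i := fun s => Or.inr h7
    cases s0 <;> cases r0
    · exact ⟨_, ⟨v1 _, v1 _⟩, av⟩
    · cases s1
      · exact ⟨_, ⟨y2 _, y1 _⟩, ay⟩
      · exact ⟨_, ⟨x2 _, x1 _⟩, ax⟩
    · cases r1
      · exact ⟨_, ⟨y1 _, y2 _⟩, ay⟩
      · exact ⟨_, ⟨x1 _, x2 _⟩, ax⟩
    · exact ⟨_, ⟨x1 _, x1 _⟩, ax⟩
  choose w hw1 hw2 using hw
  obtain ⟨T, hT, hTe⟩ := eq_open_union_countable (fun i : J => E s1 s0 i ∩ E r1 r0 i)
    (fun i => (hE _ _ _).inter (hE _ _ _))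
  obtain ⟨j, hj, hjT⟩ := O_bound (hT.image Subtype.val) u4
  have hm : w j ∈ ⋃ i : J, E s1 s0 i ∩ E r1 r0 i := mem_iUnion.2 ⟨⟨j, hj⟩, hw1 j⟩
  rw [← hTe] at hm
  obtain ⟨i, hi, hwi⟩ := mem_iUnion₂.1 hm
  have hij : (i : O) < j := hjT i ⟨i, hi, rfl⟩
  obtain ⟨e1, e2⟩ := hw2 j i hij
  rcases lt_or_gt_of_ne (hz.ne hij.ne) with hl | hl
  · rcases hwi.1 with h' | h'
    · exact (c1 i (k2 (k3 (k4 i.2))) j (k2 (k3 (k4 hj))) hl).not_ex (e1 ▸ h')
    · exact (c2 i (k3 (k4 i.2)) j (k3 (k4 hj)) hl).not_ex (e2 ▸ h')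
  · have hl' : - z i < - z j := neg_lt_neg hl
    rcases hwi.2 with h' | h'
    · exact (c3 i (k4 i.2) j (k4 hj) hl').not_ex (e1 ▸ h')
    · exact (c4 i i.2 j hj hl').not_ex (e2 ▸ h')

theorem cover (hS : SOCA) [CompactSpace K] [HereditarilyLindelofSpace K]
    {g : B → C(K, ℝ)} {x : A → K} {a b a' b' : ℝ} (ha : a' < a) (hb : b < b')
    {κ : Type*} [Countable κ] (U : κ → Set B) (V : κ → Set A) (h : ∀ k, Can g x a b (U k) (V k))
    (z : O → ℝ) (hz : Function.Injective z) {I : Set O} (hI : ¬ I.Countable)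
    (β : O → B) (α : O → A)
    (hc : ∀ i ∈ I, ∀ j ∈ I, z i < z j → ∃ k, β i ∈ U k ∧ α j ∈ V k) :
    ∃ J ⊆ I, ¬ J.Countable ∧ ∃ s, ∀ i ∈ J, ∀ j ∈ J, z i < z j →
      Side a' b' s (g (β i) (x (α j))) := by
  choose U0 hU0 htr using fun k => triangle (h k)
  choose W hW using fun k => nb g (hU0 k)
  let H : O → Set K := fun i => {y | b' ≤ g (β i) y}
  have hH : ∀ i, IsClosed (H i) := fun i => isClosed_le continuous_const (g _).continuous
  obtain ⟨J1, k1, u1, h1 | h1⟩ := so hS z hz hI (κ := κ × ℕ)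
    (fun p => {i | Disjoint (W p.1 p.2) (H i)}) (fun p => {j | x (α j) ∈ W p.1 p.2})
  · refine ⟨J1, k1, u1, false, fun i hi j hj hl => ?_⟩
    obtain ⟨p, hp1, hp2⟩ := h1 i hi j hj hl
    exact not_le.1 (disjoint_left.1 hp1 hp2)
  have inc : ∀ i ∈ J1, ∀ j ∈ J1, z i < z j → ∀ k, ∃ v ∈ H i, ∀ γ ∈ U0 k, g γ v = g γ (x (α j)) := by
    intro i hi j hj hl k
    by_contra hn
    obtain ⟨m, hm1, hm2⟩ := hW k (x (α j)) (H i) (hH i) (fun y hy hh => hn ⟨y, hy, hh⟩)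
    exact h1 i hi j hj hl (k, m) ⟨hm2, hm1⟩
  obtain ⟨c, hc1, hc2⟩ := exists_between ha
  have sub : ∀ p : κ × ℚ, ∃ T : Set O, T.Countable ∧
      (∀ i ∈ T, i ∈ J1 ∧ β i ∈ U p.1 ∧ z i < p.2) ∧
      ∀ i, i ∈ J1 → β i ∈ U p.1 → z i < p.2 → ∀ y, g (β i) y < c → ∃ i0 ∈ T, g (β i0) y < c := by
    intro p
    obtain ⟨T, hT, hTe⟩ := eq_open_union_countable
      (fun i : {i // i ∈ J1 ∧ β i ∈ U p.1 ∧ z i < p.2} => {y | g (β i) y < c})
      (fun i => isOpen_lt (g _).continuous continuous_const)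
    refine ⟨Subtype.val '' T, hT.image _, ?_, fun i h1 h2 h3 y hy => ?_⟩
    · rintro _ ⟨i, -, rfl⟩
      exact i.2
    · have hm : y ∈ ⋃ i : {i // i ∈ J1 ∧ β i ∈ U p.1 ∧ z i < p.2}, {y | g (β i) y < c} :=
        mem_iUnion.2 ⟨⟨i, h1, h2, h3⟩, hy⟩
      rw [← hTe] at hm
      obtain ⟨i0, hi0, hy0⟩ := mem_iUnion₂.1 hm
      exact ⟨i0, ⟨i0, hi0, rfl⟩, hy0⟩
  choose T hT hT1 hT2 using sub
  have hTc : (⋃ p, T p).Countable := countable_iUnion hT
  have := hTc.to_subtype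
  let C : O → Set K := fun i => {y | g (β i) y ≤ c}
  have hC : ∀ i, IsClosed (C i) := fun i => isClosed_le (g _).continuous continuous_const
  obtain ⟨J, k2, u2, h2 | h2⟩ := so hS z hz u1 (κ := (⋃ p, T p : Set O) × κ × ℕ)
    (fun p => {i | Disjoint (W p.2.1 p.2.2) (H i ∩ C p.1)})
    (fun p => {j | x (α j) ∈ W p.2.1 p.2.2 ∧ x (α j) ∈ C p.1})
  · refine ⟨J, k2.trans k1, u2, false, fun i hi j hj hl => ?_⟩
    obtain ⟨p, hp1, hp2, hp3⟩ := h2 i hi j hj hl
    exact not_le.1 fun hh => disjoint_left.1 hp1 hp2 ⟨hh, hp3⟩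
  refine ⟨J, k2.trans k1, u2, true, fun i hi j hj hl => ?_⟩
  by_contra hlo
  have hlo' : g (β i) (x (α j)) ≤ a' := not_lt.1 hlo
  obtain ⟨k, hk1, hk2⟩ := hc i (k1 (k2 hi)) j (k1 (k2 hj)) hl
  obtain ⟨q, hq1, hq2⟩ := exists_rat_btwn hl
  obtain ⟨i0, hi0, hx0⟩ := hT2 (k, q) i (k2 hi) hk1 hq1 (x (α j)) (hlo'.trans_lt hc1)
  obtain ⟨m1, m2, m3⟩ := hT1 (k, q) i0 hi0
  obtain ⟨v, hv1, hv2⟩ := inc i0 m1 j (k2 hj) (m3.trans hq2) k
  obtain ⟨m, hm1, hm2⟩ := hW k (x (α j)) (H i ∩ C i0) ((hH i).inter (hC i0)) (fun y hy hh =>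
    htr k _ hk2 _ hk1 _ m2 y v hh hv2 (hlo'.trans_lt ha) (hb.trans_le hy.1) (hx0.trans hc2)
      (lt_of_le_of_lt hy.2 hc2) (hb.trans_le hv1))
  exact h2 i hi j hj hl (⟨i0, mem_iUnion.2 ⟨_, hi0⟩⟩, k, m) ⟨hm2, hm1, hx0.le⟩

theorem ind (hS : SOCA) [CompactSpace K] [HereditarilyLindelofSpace K]
    {g : B → C(K, ℝ)} {x : A → K} {a b : ℝ} {κ : Type*} [Countable κ] (𝒰 : κ → Set B)
    (l : B → A → Ordinal.{0}) (ρ : Ordinal.{0}) (hρ : (Iio ρ).Countable)
    (hl : ∀ β α, ∃ n, β ∈ 𝒰 n ∧ (∀ β' ∈ 𝒰 n, l β' α ≤ l β α) ∧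
      ∃ s, ∀ β' ∈ 𝒰 n, l β' α = l β α → Side a b s (g β' (x α))) :
    ∀ ζ ≤ ρ, ∀ (U : Set B) (V : Set A), (∀ β ∈ U, ∀ α ∈ V, l β α ≤ ζ) →
      ∀ a' < a, ∀ b' > b, Can g x a' b' U V := by
  intro ζ
  induction ζ using WellFoundedLT.induction with
  | ind ζ ih =>
  intro hζ U V hUV a' ha b' hb z hz I hI β α hβ hα
  obtain ⟨a1, ha1, ha2⟩ := exists_between ha
  obtain ⟨b1, hb1, hb2⟩ := exists_between hb
  have := (hρ.mono (Iio_subset_Iio hζ)).to_subtype
  let V' : κ × Iio ζ → Set A := fun p => {α | ∀ β' ∈ 𝒰 p.1, l β' α ≤ p.2}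
  obtain ⟨J1, k1, u1, h1 | h1⟩ := so hS z hz hI (κ := κ × Iio ζ)
    (fun p => {i | β i ∈ 𝒰 p.1}) (fun p => {j | α j ∈ V' p})
  · obtain ⟨J, k2, u2, h2⟩ := cover hS ha1 hb2 (fun p : κ × Iio ζ => 𝒰 p.1) V'
      (fun p => ih p.2 p.2.2 (le_trans (le_of_lt p.2.2) hζ) (𝒰 p.1) (V' p)
        (fun β hβ α hα => hα β hβ)
        a1 ha2 b1 hb1) z hz u1 β α h1
    exact ⟨J, k2.trans k1, u2, h2⟩
  have top : ∀ i ∈ J1, ∀ j ∈ J1, z i < z j → l (β i) (α j) = ζ := by
    intro i hi j hj hlt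
    refine le_antisymm (hUV _ (hβ i (k1 hi)) _ (hα j (k1 hj))) (not_lt.1 fun hh => ?_)
    obtain ⟨n, hn1, hn2, -⟩ := hl (β i) (α j)
    exact h1 i hi j hj hlt (n, ⟨_, hh⟩) ⟨hn1, hn2⟩
  obtain ⟨J, k2, u2, h2 | h2⟩ := so hS z hz u1 (fun n => {i | β i ∈ 𝒰 n})
    (fun n => {j | ∀ β' ∈ 𝒰 n, l β' (α j) = ζ → g β' (x (α j)) < b})
  · refine ⟨J, k2.trans k1, u2, false, fun i hi j hj hlt => ?_⟩
    obtain ⟨n, hn1, hn2⟩ := h2 i hi j hj hlt
    exact (hn2 _ hn1 (top i (k2 hi) j (k2 hj) hlt)).trans hb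
  · refine ⟨J, k2.trans k1, u2, true, fun i hi j hj hlt => ?_⟩
    obtain ⟨n, hn1, -, s, hs⟩ := hl (β i) (α j)
    cases s
    · exact absurd ⟨hn1, fun β' h1 h2 => hs β' h1 (h2.trans (top i (k2 hi) j (k2 hj) hlt).symm)⟩
        (h2 i hi j hj hlt n)
    · exact ha.trans (hs _ hn1 rfl)

end Pool.Agent.MP_b60a07_lc

end MrgPart1

-- ======== part 2: formerly Pool.Agent.MP_b60a07_lc.Rank
section MrgPart2

open Set Filter Topology

namespace Pool.Agent.MP_b60a07_lc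

variable {Y : Type} [TopologicalSpace Y]

def Pat (h : ℕ → Y → ℝ) (t S : Finset ℕ) (y : Y) : Prop :=
  ∀ k ∈ t, (k ∈ S → h k y < 1 / 3) ∧ (k ∉ S → 2 / 3 < h k y)

def Rel (h : ℕ → Y → ℝ) (t' t : Finset ℕ) : Prop := (∀ S, ∃ y, Pat h t' S y) ∧ t ⊂ t'

theorem Pat_open {h : ℕ → Y → ℝ} (hc : ∀ k, Continuous (h k)) (t S : Finset ℕ) :
    IsOpen {y | Pat h t S y} := by
  have : {y | Pat h t S y} = ⋂ k ∈ t, {y | (k ∈ S → h k y < 1 / 3) ∧ (k ∉ S → 2 / 3 < h k y)} := by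
    ext y; simp [Pat]
  rw [this]
  refine isOpen_biInter_finset fun k _ => ?_
  by_cases hk : k ∈ S
  · simpa [hk] using isOpen_lt (hc k) continuous_const
  · simpa [hk] using isOpen_lt continuous_const (hc k)

theorem no_indep [CompactSpace Y] (h : ℕ → Y → ℝ) (hc : ∀ k, Continuous (h k)) (u : Y → ℝ)
    (hu : Baire1 u) (hl : ∀ y, Tendsto (fun i => h i y) (hyperfilter ℕ) (𝓝 (u y)))
    (hi : ∀ σ : ℕ → Bool, ∃ y, ∀ i, (σ i = true → h i y ≤ 1 / 3) ∧ (σ i = false → 2 / 3 ≤ h i y)) :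
    False := by
  obtain ⟨v, hv, hvu⟩ := hu
  let E : Set ((ℕ → Bool) × Y) :=
    {p | ∀ i, (p.1 i = true → h i p.2 ≤ 1 / 3) ∧ (p.1 i = false → 2 / 3 ≤ h i p.2)}
  have hop : ∀ (m : ℕ) (b : Bool), IsOpen {p : (ℕ → Bool) × Y | p.1 m = b} := fun m b =>
    (isOpen_discrete ({b} : Set Bool)).preimage
      ((continuous_apply (A := fun _ : ℕ => Bool) m).comp continuous_fst)
  have hE : IsClosed E := by
    simp only [E, ofPred_forall]
    refine isClosed_iInter fun i => IsClosed.inter ?_ ?_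
    · exact isClosed_imp (hop _ _) (isClosed_le ((hc i).comp continuous_snd) continuous_const)
    · exact isClosed_imp (hop _ _) (isClosed_le continuous_const ((hc i).comp continuous_snd))
  have key : ∀ p ∈ E, ({i | p.1 i = true} ∈ hyperfilter ℕ → u p.2 ≤ 1 / 3) ∧
      ({i | p.1 i = false} ∈ hyperfilter ℕ → 2 / 3 ≤ u p.2) := fun p hp =>
    ⟨fun hm => le_of_tendsto (hl p.2) (mem_of_superset hm fun i hi => (hp i).1 hi),
      fun hm => ge_of_tendsto (hl p.2) (mem_of_superset hm fun i hi => (hp i).2 hi)⟩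
  let L : ℕ × Bool → Set Y := fun q =>
    {y | ∀ m ≥ q.1, if q.2 then v m y ≤ 1 / 2 else 1 / 2 ≤ v m y}
  have hL : ∀ q, IsClosed (L q) := by
    rintro ⟨n, b⟩
    simp only [L, ofPred_forall]
    refine isClosed_iInter fun m => isClosed_iInter fun _ => ?_
    cases b
    · simpa using isClosed_le continuous_const (hv m)
    · simpa using isClosed_le (hv m) continuous_const
  obtain ⟨q, σ, hσ⟩ := nonempty_interior_of_iUnion_of_closed
    (f := fun q : ℕ × Bool => Prod.fst '' (E ∩ Prod.snd ⁻¹' L q))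
    (fun q => isClosedMap_fst_of_compactSpace _ (hE.inter ((hL q).preimage continuous_snd))) (by
      refine eq_univ_of_forall fun σ => ?_
      obtain ⟨y, hy⟩ := hi σ
      have hp : (σ, y) ∈ E := hy
      rcases (hyperfilter ℕ).mem_or_compl_mem {i | σ i = true} with hm | hm
      · have h1 : u y < 1 / 2 := ((key _ hp).1 hm).trans_lt (by norm_num)
        obtain ⟨n, hn⟩ := eventually_atTop.1 ((hvu y).eventually (gt_mem_nhds h1))
        exact mem_iUnion.2 ⟨(n, true), (σ, y), ⟨hp, fun m hm => by simpa using (hn m hm).le⟩, rfl⟩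
      · have hm' : {i | σ i = false} ∈ hyperfilter ℕ :=
          mem_of_superset hm fun i hi => by simpa using hi
        have h1 : 1 / 2 < u y := lt_of_lt_of_le (by norm_num) ((key _ hp).2 hm')
        obtain ⟨n, hn⟩ := eventually_atTop.1 ((hvu y).eventually (lt_mem_nhds h1))
        exact mem_iUnion.2 ⟨(n, false), (σ, y), ⟨hp, fun m hm => by simpa using (hn m hm).le⟩, rfl⟩)
  obtain ⟨n, b⟩ := q
  have ht : Tendsto (fun N : ℕ => fun i => if i < N then σ i else !b) atTop (𝓝 σ) :=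
    tendsto_pi_nhds.2 fun i => tendsto_const_nhds.congr'
      ((eventually_gt_atTop i).mono fun N hN => by simp [hN])
  obtain ⟨N, hN⟩ := (ht.eventually (isOpen_interior.mem_nhds hσ)).exists
  obtain ⟨p, ⟨hp, hpL⟩, hp1⟩ := interior_subset hN
  have hm : {i | p.1 i = !b} ∈ hyperfilter ℕ := by
    refine hyperfilter_le_cofinite ((Nat.cofinite_eq_atTop ▸ eventually_ge_atTop N).mono ?_)
    intro i hi
    simp [hp1, not_lt.2 hi]
  cases b
  · have h1 := (key _ hp).1 hm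
    have h2 : 1 / 2 ≤ u p.2 := ge_of_tendsto (hvu p.2) (eventually_atTop.2 ⟨n, fun m hm => by
      simpa using hpL m hm⟩)
    linarith
  · have h1 := (key _ hp).2 hm
    have h2 : u p.2 ≤ 1 / 2 := le_of_tendsto (hvu p.2) (eventually_atTop.2 ⟨n, fun m hm => by
      simpa using hpL m hm⟩)
    linarith

theorem Rel_wf [CompactSpace Y] (h : ℕ → Y → ℝ) (hc : ∀ k, Continuous (h k))
    (hl : ∀ k : ℕ → ℕ, ∃ u : Y → ℝ, Baire1 u ∧
      ∀ y, Tendsto (fun i => h (k i) y) (hyperfilter ℕ) (𝓝 (u y))) :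
    WellFounded (Rel h) := by
  classical
  rw [wellFounded_iff_isEmpty_descending_chain]
  refine ⟨fun ⟨t, ht⟩ => ?_⟩
  have hm : StrictMono t := strictMono_nat_of_lt_succ fun n => (ht n).2
  choose k hk1 hk2 using fun n => Finset.exists_of_ssubset (ht n).2
  have hk : Function.Injective k := by
    have : ∀ i j, i < j → k i ≠ k j := fun i j hij e =>
      hk2 j (e ▸ hm.monotone (Nat.succ_le_of_lt hij) (hk1 i))
    intro i j e
    rcases lt_trichotomy i j with l | l | l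
    · exact absurd e (this _ _ l)
    · exact l
    · exact absurd e.symm (this _ _ l)
  obtain ⟨u, hu, hul⟩ := hl k
  refine no_indep (fun i => h (k i)) (fun i => hc _) u hu hul fun σ => ?_
  let C : ℕ → Set Y := fun n =>
    {y | ∀ i ≤ n, (σ i = true → h (k i) y ≤ 1 / 3) ∧ (σ i = false → 2 / 3 ≤ h (k i) y)}
  have hC : ∀ n, IsClosed (C n) := fun n => by
    simp only [C, ofPred_forall]
    refine isClosed_iInter fun i => isClosed_iInter fun _ => IsClosed.inter ?_ ?_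
    · exact isClosed_imp isOpen_const (isClosed_le (hc _) continuous_const)
    · exact isClosed_imp isOpen_const (isClosed_le continuous_const (hc _))
  obtain ⟨y, hy⟩ := IsCompact.nonempty_iInter_of_sequence_nonempty_isCompact_isClosed C
    (fun n y hy i hi => hy i (hi.trans n.le_succ)) (fun n => by
      obtain ⟨y, hy⟩ := (ht n).1 (((Finset.range (n + 1)).filter fun i => σ i = true).image k)
      refine ⟨y, fun i hi => ?_⟩
      have h1 := hy (k i) (hm.monotone (Nat.succ_le_succ hi) (hk1 i))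
      refine ⟨fun hs => (h1.1 (Finset.mem_image.2 ⟨i, by simp [hs, hi], rfl⟩)).le,
        fun hs => (h1.2 fun hh => ?_).le⟩
      obtain ⟨j, hj, e⟩ := Finset.mem_image.1 hh
      rw [hk e] at hj
      simp [hs] at hj) (hC 0).isCompact hC
  exact ⟨y, fun i => mem_iInter.1 hy i i le_rfl⟩

def der (f : Y → ℝ) (P : Set Y) : Set Y :=
  closure (P ∩ {y | f y ≤ 0}) ∩ closure (P ∩ {y | 1 ≤ f y})

def lev (f : Y → ℝ) (ξ : Ordinal.{0}) : Set Y := ⋂ η : Iio ξ, der f (lev f η)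
termination_by ξ
decreasing_by exact η.2

theorem mem_lev {f : Y → ℝ} {ξ : Ordinal.{0}} {y : Y} :
    y ∈ lev f ξ ↔ ∀ η < ξ, y ∈ der f (lev f η) := by
  rw [lev]
  simp

theorem le_rank {h : ℕ → Y → ℝ} (hc : ∀ k, Continuous (h k)) [IsWellFounded _ (Rel h)]
    (f : Y → ℝ) (hf : ∀ S : Finset Y, ∃ k, ∀ y ∈ S, |f y - h k y| < 1 / 3) (ξ : Ordinal.{0}) :
    ∀ t, (∀ S, ∃ y ∈ lev f ξ, Pat h t S y) → ξ ≤ IsWellFounded.rank (Rel h) t := by
  classical
  induction ξ using WellFoundedLT.induction with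
  | ind ξ ih =>
  intro t ht
  by_contra hlt
  have hlt' := not_le.1 hlt
  set η := IsWellFounded.rank (Rel h) t with hη
  have h0 : ∀ S, ∃ y, (y ∈ lev f η ∧ f y ≤ 0) ∧ Pat h t S y := fun S => by
    obtain ⟨y, hy, hp⟩ := ht S
    obtain ⟨w, hw1, hw2⟩ := mem_closure_iff.1 (mem_lev.1 hy η hlt').1 _ (Pat_open hc t S) hp
    exact ⟨w, hw2, hw1⟩
  have h1 : ∀ S, ∃ y, (y ∈ lev f η ∧ 1 ≤ f y) ∧ Pat h t S y := fun S => by
    obtain ⟨y, hy, hp⟩ := ht S
    obtain ⟨w, hw1, hw2⟩ := mem_closure_iff.1 (mem_lev.1 hy η hlt').2 _ (Pat_open hc t S) hp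
    exact ⟨w, hw2, hw1⟩
  choose y0 a0 b0 using h0
  choose y1 a1 b1 using h1
  obtain ⟨d, hd⟩ := hf (t.powerset.image y0 ∪ t.powerset.image y1)
  have d0 : ∀ S ⊆ t, h d (y0 S) < 1 / 3 := fun S hS => by
    have := abs_lt.1 (hd _ (Finset.mem_union_left _ (Finset.mem_image_of_mem _
      (Finset.mem_powerset.2 hS))))
    linarith [(a0 S).2]
  have d1 : ∀ S ⊆ t, 2 / 3 < h d (y1 S) := fun S hS => by
    have := abs_lt.1 (hd _ (Finset.mem_union_right _ (Finset.mem_image_of_mem _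
      (Finset.mem_powerset.2 hS))))
    linarith [(a1 S).2]
  have hdt : d ∉ t := fun hh => by
    have e1 := (b0 ∅ d hh).2 (Finset.notMem_empty d)
    have e2 := d0 ∅ (Finset.empty_subset _)
    linarith
  have hn : ∀ S, ∃ y ∈ lev f η, Pat h (insert d t) S y := fun S => by
    by_cases hS : d ∈ S
    · refine ⟨y0 (S ∩ t), (a0 _).1, fun k hk => ?_⟩
      rcases Finset.mem_insert.1 hk with rfl | hk
      · exact ⟨fun _ => d0 _ Finset.inter_subset_right, fun hh => absurd hS hh⟩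
      · simpa [hk] using b0 (S ∩ t) k hk
    · refine ⟨y1 (S ∩ t), (a1 _).1, fun k hk => ?_⟩
      rcases Finset.mem_insert.1 hk with rfl | hk
      · exact ⟨fun hh => absurd hh hS, fun _ => d1 _ Finset.inter_subset_right⟩
      · simpa [hk] using b1 (S ∩ t) k hk
  have hr : Rel h (insert d t) t :=
    ⟨fun S => (hn S).imp fun y hy => hy.2, Finset.ssubset_insert hdt⟩
  exact absurd (ih η hlt' _ hn) (not_le.2 (IsWellFounded.rank_lt_of_rel hr))

theorem rank_bound [CompactSpace Y] [SecondCountableTopology Y] (h : ℕ → Y → ℝ)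
    (hc : ∀ k, Continuous (h k))
    (hl : ∀ k : ℕ → ℕ, ∃ u : Y → ℝ, Baire1 u ∧
      ∀ y, Tendsto (fun i => h (k i) y) (hyperfilter ℕ) (𝓝 (u y)))
    {A : Type*} (F : A → Y → ℝ) (hF : ∀ α (S : Finset Y), ∃ k, ∀ y ∈ S, |F α y - h k y| < 1 / 3) :
    ∃ ρ : Ordinal.{0}, (Iio ρ).Countable ∧ ∃ l : Y → A → Ordinal.{0}, (∀ y α, l y α ≤ ρ) ∧
      ∀ y α, ∃ U : TopologicalSpace.countableBasis Y, y ∈ U.1 ∧ (∀ y' ∈ U.1, l y' α ≤ l y α) ∧
        ∃ s, ∀ y' ∈ U.1, l y' α = l y α → Side 0 1 s (F α y') := by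
  have : IsWellFounded _ (Rel h) := ⟨Rel_wf h hc hl⟩
  let ρ := IsWellFounded.rank (Rel h) ∅
  have hex : ∀ y α, ∃ η ≤ ρ, y ∉ der (F α) (lev (F α) η) := fun y α => by
    by_contra hn
    push Not at hn
    have := le_rank hc (F α) (hF α) (Order.succ ρ) ∅ fun S =>
      ⟨y, mem_lev.2 fun η hη => hn η (Order.lt_succ_iff.1 hη), fun k hk => by simp at hk⟩
    exact absurd this (not_le.2 (Order.lt_succ ρ))
  let l : Y → A → Ordinal.{0} := fun y α => sInf {η | y ∉ der (F α) (lev (F α) η)}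
  have l1 : ∀ y α, y ∉ der (F α) (lev (F α) (l y α)) := fun y α =>
    csInf_mem (s := {η | y ∉ der (F α) (lev (F α) η)}) ((hex y α).imp fun _ hh => hh.2)
  have l2 : ∀ y α η, y ∉ der (F α) (lev (F α) η) → l y α ≤ η := fun y α η hh => csInf_le' hh
  have l3 : ∀ y α, y ∈ lev (F α) (l y α) := fun y α => mem_lev.2 fun η hη => by
    by_contra hn
    exact absurd (l2 y α η hn) (not_le.2 hη)
  refine ⟨ρ, (countable_range _).mono fun η hη => IsWellFounded.mem_range_rank_of_le (le_of_lt hη),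
    l, fun y α => ?_, fun y α => ?_⟩
  · obtain ⟨η, h1, h2⟩ := hex y α
    exact (l2 y α η h2).trans h1
  · rcases not_and_or.1 (l1 y α) with hn | hn
    · obtain ⟨U, hU, hy, hs⟩ := (TopologicalSpace.isBasis_countableBasis Y).exists_subset_of_mem_open
        hn isClosed_closure.isOpen_compl
      refine ⟨⟨U, hU⟩, hy, fun y' hy' => l2 _ _ _ fun hh => hs hy' hh.1, true, fun y' hy' e => ?_⟩
      exact not_le.1 fun hh => hs hy' (subset_closure ⟨e ▸ l3 y' α, hh⟩)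
    · obtain ⟨U, hU, hy, hs⟩ := (TopologicalSpace.isBasis_countableBasis Y).exists_subset_of_mem_open
        hn isClosed_closure.isOpen_compl
      refine ⟨⟨U, hU⟩, hy, fun y' hy' => l2 _ _ _ fun hh => hs hy' hh.2, false, fun y' hy' e => ?_⟩
      exact not_le.1 fun hh => hs hy' (subset_closure ⟨e ▸ l3 y' α, hh⟩)

end Pool.Agent.MP_b60a07_lc

end MrgPart2

-- ======== part 3: formerly Pool.Agent.MP_b60a07_lc.Martin
section MrgPart3

open Set Filter Topology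

namespace Pool.Agent.MP_b60a07_lc

theorem MA1.index (hM : MA1) (P : Type) [Preorder P] [Nonempty P]
    (hc : ∀ A : Set P, A.Pairwise (fun p q => ¬ ∃ r, r ≤ p ∧ r ≤ q) → A.Countable)
    (D : O ⊕ ℕ → Set P) (hD : ∀ i p, ∃ q ∈ D i, q ≤ p) :
    ∃ G : Set P, G.Nonempty ∧ (∀ p ∈ G, ∀ q ∈ G, ∃ r ∈ G, r ≤ p ∧ r ≤ q) ∧
      ∀ i, (G ∩ D i).Nonempty := by
  obtain ⟨G, h1, -, h2, h3⟩ := hM P hc (range D) (Cardinal.mk_range_le.trans (by
    simp [Cardinal.add_eq_left Cardinal.aleph0_lt_aleph_one.le Cardinal.aleph0_lt_aleph_one.le]))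
    (by rintro _ ⟨i, rfl⟩; exact hD i)
  exact ⟨G, h1, h2, fun i => h3 _ ⟨i, rfl⟩⟩

structure Hech where
  n : ℕ
  u : ℕ → ℕ

instance : Preorder Hech where
  le p q := q.n ≤ p.n ∧ (∀ i < q.n, p.u i = q.u i) ∧ ∀ i, q.u i ≤ p.u i
  le_refl p := ⟨le_rfl, fun _ _ => rfl, fun _ => le_rfl⟩
  le_trans p q r h1 h2 := ⟨h2.1.trans h1.1, fun i hi =>
    (h1.2.1 i (hi.trans_le h2.1)).trans (h2.2.1 i hi), fun i => (h2.2.2 i).trans (h1.2.2 i)⟩

theorem bounded (hM : MA1) (w : O → ℕ → ℕ) {I : Set O} (hI : ¬ I.Countable) :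
    ∃ g : ℕ → ℕ, ¬ {i ∈ I | ∀ n, w i n ≤ g n}.Countable := by
  have : Nonempty Hech := ⟨⟨0, fun _ => 0⟩⟩
  obtain ⟨G, -, h2, h3⟩ := hM.index Hech (fun A hA => by
      refine countable_of_injective_of_countable_image
        (f := fun p : Hech => List.ofFn fun i : Fin p.n => p.u i) (fun p hp q hq e => ?_)
        (to_countable _)
      by_contra hne
      apply hA hp hq hne
      obtain ⟨n, u⟩ := p
      obtain ⟨m, v⟩ := q
      obtain rfl : n = m := by simpa using congrArg List.length e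
      have e' : ∀ i < n, u i = v i := fun i hi => congrFun (List.ofFn_injective e) ⟨i, hi⟩
      exact ⟨⟨n, fun i => max (u i) (v i)⟩,
        ⟨le_rfl, fun i hi => by simp [e' i hi], fun i => le_max_left _ _⟩,
        ⟨le_rfl, fun i hi => by simp [e' i hi], fun i => le_max_right _ _⟩⟩)
    (Sum.elim (fun i => {p | ∀ m ≥ p.n, w i m ≤ p.u m}) fun k => {p | k < p.n}) (by
      rintro (i | k) p
      · refine ⟨⟨p.n, fun m => if m < p.n then p.u m else max (p.u m) (w i m)⟩,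
          fun m hm => ?_, le_rfl, fun m hm => by simp [hm], fun m => ?_⟩
        · have : ¬ m < p.n := not_lt.2 hm
          simp [this]
        · by_cases hm : m < p.n <;> simp [hm]
      · exact ⟨⟨p.n + k + 1, p.u⟩, by show k < p.n + k + 1; omega,
          by show p.n ≤ p.n + k + 1; omega, fun _ _ => rfl, fun _ => le_rfl⟩)
  choose q hq1 hq2 using fun k => h3 (Sum.inr k)
  have hb : ∀ i ∈ I, ∃ k : ℕ, ∀ n, w i n ≤ (q n).u n + k := fun i _ => by
    obtain ⟨p, hp1, hp2⟩ := h3 (Sum.inl i)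
    refine ⟨(Finset.range p.n).sup (w i), fun n => ?_⟩
    rcases lt_or_ge n p.n with hn | hn
    · exact le_add_left (Finset.le_sup (f := w i) (Finset.mem_range.2 hn))
    · obtain ⟨r, -, r1, r2⟩ := h2 p hp1 _ (hq1 n)
      exact le_add_right ((hp2 n hn).trans ((r1.2.2 n).trans (r2.2.1 n (hq2 n)).le))
  obtain ⟨k, hk⟩ := unc_fiber hI _ hb
  exact ⟨_, hk⟩

variable {K : Type} [TopologicalSpace K] [CompactSpace K] [T2Space K]
  [HereditarilyLindelofSpace K]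

theorem tight {S : Set K} {p : K} (hp : p ∈ closure S) :
    ∃ T ⊆ S, T.Countable ∧ p ∈ closure T := by
  classical
  obtain ⟨T, hT, hTe⟩ := eq_open_union_countable
    (fun V : {V : Set K // IsOpen V ∧ p ∉ closure V} => V.1) (fun V => V.2.1)
  have h1 : ∀ F : Finset {V : Set K // IsOpen V ∧ p ∉ closure V},
      ∃ s ∈ S, ∀ V ∈ F, s ∉ V.1 := fun F => by
    obtain ⟨s, hs1, hs2⟩ := mem_closure_iff.1 hp (⋂ V ∈ F, (closure V.1)ᶜ)
      (isOpen_biInter_finset fun V _ => isClosed_closure.isOpen_compl)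
      (mem_iInter₂.2 fun V _ => V.2.2)
    exact ⟨s, hs2, fun V hV h => mem_iInter₂.1 hs1 V hV (subset_closure h)⟩
  choose s hs1 hs2 using h1
  have hcT : {F : Finset {V : Set K // IsOpen V ∧ p ∉ closure V} | ↑F ⊆ T}.Countable := by
    refine countable_of_injective_of_countable_image Finset.coe_injective.injOn
      ((countable_ofPred_finite_subset hT).mono ?_)
    rintro _ ⟨F, hF, rfl⟩
    exact ⟨F.finite_toSet, hF⟩
  refine ⟨s '' {F | ↑F ⊆ T}, ?_, hcT.image _, ?_⟩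
  · rintro _ ⟨F, -, rfl⟩
    exact hs1 F
  · refine mem_closure_iff.2 fun W hW hpW => ?_
    obtain ⟨F, hF, hFf, hc⟩ := hW.isClosed_compl.isCompact.elim_finite_subcover_image
      (b := T) (c := fun V => V.1) (fun V _ => V.2.1) (fun y hy => by
        rw [hTe]
        have hne : y ≠ p := fun e => hy (e ▸ hpW)
        obtain ⟨V, hV1, hV2, hV3⟩ := normal_exists_closure_subset (isClosed_singleton (x := y))
          (isOpen_compl_singleton (x := p)) (singleton_subset_iff.2 hne)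
        exact mem_iUnion.2 ⟨⟨V, hV1, fun h => hV3 h rfl⟩, hV2 rfl⟩)
    refine ⟨s hFf.toFinset, ?_, hFf.toFinset, by simpa using hF, rfl⟩
    by_contra hn
    obtain ⟨V, hV, hsV⟩ := mem_iUnion₂.1 (hc hn)
    exact hs2 _ V (hFf.mem_toFinset.2 hV) hsV

theorem separable (hM : MA1) : ∃ D : Set K, D.Countable ∧ Dense D := by
  by_contra hn
  push Not at hn
  obtain ⟨x, hx⟩ := O_rec (T := K) (fun S t => t ∉ closure S) fun S hS => by
    simpa [Dense] using hn S hS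
  have : Nonempty O := not_isEmpty_iff.1 fun _ => O_unc (to_countable _)
  let F : O → Set K := fun i => closure (x '' Iio i)
  let Z : Set K := closure (range x)
  have hF : ∀ i j, i ≤ j → F i ⊆ F j := fun i j h => closure_mono (image_mono (Iio_subset_Iio h))
  have hZ : ∀ p ∈ Z, ∃ i, p ∈ F i := fun p hp => by
    obtain ⟨T, hT1, hT2, hT3⟩ := tight hp
    obtain ⟨j, -, hj⟩ := O_bound (hT2.image (Function.invFun x)) O_unc
    refine ⟨j, closure_mono (fun t ht => ?_) hT3⟩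
    exact ⟨_, hj _ ⟨t, ht, rfl⟩, Function.invFun_eq (hT1 ht)⟩
  obtain ⟨V0, hV0, hV0Z, hV⟩ : ∃ V0, IsOpen V0 ∧ (V0 ∩ Z).Nonempty ∧
      ∀ i V, IsOpen V → V ⊆ V0 → (V ∩ Z).Nonempty → ¬ V ∩ Z ⊆ F i := by
    by_contra hc
    push Not at hc
    obtain ⟨T, hT, hTe⟩ := eq_open_union_countable
      (fun q : {q : Set K × O // IsOpen q.1 ∧ q.1 ∩ Z ⊆ F q.2} => q.1.1) (fun q => q.2.1)
    obtain ⟨j, -, hj⟩ := O_bound (hT.image fun q => q.1.2) O_unc
    obtain ⟨i, V, h1, h2, ⟨y, h3, h3'⟩, h4⟩ := hc (F j)ᶜ isClosed_closure.isOpen_compl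
      ⟨x j, hx j, subset_closure ⟨j, rfl⟩⟩
    have hm : y ∈ ⋃ q : {q : Set K × O // IsOpen q.1 ∧ q.1 ∩ Z ⊆ F q.2}, q.1.1 :=
      mem_iUnion.2 ⟨⟨(V, i), h1, h4⟩, h3⟩
    rw [← hTe] at hm
    obtain ⟨q, hq, hy⟩ := mem_iUnion₂.1 hm
    exact h2 h3 (hF _ _ (hj _ ⟨q, hq, rfl⟩).le (q.2.2 ⟨hy, h3'⟩))
  let P := {V : Set K // IsOpen V ∧ V ⊆ V0 ∧ (V ∩ Z).Nonempty}
  have : Nonempty P := ⟨⟨V0, hV0, Subset.rfl, hV0Z⟩⟩
  obtain ⟨G, ⟨p0, hp0⟩, h2, h3⟩ := hM.index P (fun A hA => by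
      obtain ⟨T, hT, hTe⟩ := eq_open_union_countable (fun q : A => q.1.1) (fun q => q.1.2.1)
      refine (hT.image Subtype.val).mono fun p hp => ?_
      obtain ⟨y, hy1, hy2⟩ := p.2.2.2
      have hm : y ∈ ⋃ q : A, q.1.1 := mem_iUnion.2 ⟨⟨p, hp⟩, hy1⟩
      rw [← hTe] at hm
      obtain ⟨q, hq, hy⟩ := mem_iUnion₂.1 hm
      refine ⟨q, hq, ?_⟩
      by_contra hne
      exact hA q.2 hp hne ⟨⟨q.1.1 ∩ p.1, q.1.2.1.inter p.2.1, inter_subset_right.trans p.2.2.1,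
        y, ⟨hy, hy1⟩, hy2⟩, inter_subset_left, inter_subset_right⟩)
    (Sum.elim (fun i => {p | Disjoint (closure p.1) (F i)}) fun _ => univ) (by
      rintro (i | k) p
      · obtain ⟨y, ⟨hy1, hy2⟩, hy3⟩ := not_subset.1 (hV i p.1 p.2.1 p.2.2.1 p.2.2.2)
        obtain ⟨V, hV1, hV2, hV3⟩ := normal_exists_closure_subset (isClosed_singleton (x := y))
          (p.2.1.inter (isClosed_closure (s := x '' Iio i)).isOpen_compl)
          (singleton_subset_iff.2 ⟨hy1, hy3⟩)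
        have hVp : V ⊆ p.1 := fun v hv => (hV3 (subset_closure hv)).1
        exact ⟨⟨V, hV1, hVp.trans p.2.2.1, y, hV2 rfl, hy2⟩,
          disjoint_left.2 fun v hv => (hV3 hv).2, hVp⟩
      · exact ⟨p, trivial, le_rfl⟩)
  have : Nonempty G := ⟨⟨p0, hp0⟩⟩
  obtain ⟨y, hy⟩ := IsCompact.nonempty_iInter_of_directed_nonempty_isCompact_isClosed
    (fun p : G => closure p.1.1 ∩ Z) (fun p q => by
      obtain ⟨r, hr, r1, r2⟩ := h2 p.1 p.2 q.1 q.2
      exact ⟨⟨r, hr⟩, inter_subset_inter_left _ (closure_mono r1),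
        inter_subset_inter_left _ (closure_mono r2)⟩)
    (fun p => p.1.2.2.2.mono (inter_subset_inter_left _ subset_closure))
    (fun p => (isClosed_closure.inter isClosed_closure).isCompact)
    (fun p => isClosed_closure.inter isClosed_closure)
  obtain ⟨i, hi⟩ := hZ y (mem_iInter.1 hy ⟨p0, hp0⟩).2
  obtain ⟨p, hp1, hp2⟩ := h3 (Sum.inl i)
  exact disjoint_left.1 hp2 (mem_iInter.1 hy ⟨p, hp1⟩).1 hi

end Pool.Agent.MP_b60a07_lc

end MrgPart3

-- ======== part 4: formerly Pool.Agent.MP_b60a07_lc.Main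
section MrgPart4

open Set Filter Topology

namespace Pool.Agent.MP_b60a07_lc

theorem theta : ∃ θ : ℕ → C(ℕ → EReal, ℝ), ∀ C0 C1 : Set (ℕ → EReal), IsCompact C0 → IsCompact C1 →
    Disjoint C0 C1 → ∃ n, (∀ u ∈ C0, θ n u ≤ 0) ∧ ∀ u ∈ C1, 1 ≤ θ n u := by
  refine ⟨TopologicalSpace.denseSeq _, fun C0 C1 h0 h1 hd => ?_⟩
  obtain ⟨f, f0, f1, -⟩ := exists_continuous_zero_one_of_isClosed h0.isClosed h1.isClosed hd
  obtain ⟨n, hn0, hn1⟩ := (TopologicalSpace.denseRange_denseSeq C(ℕ → EReal, ℝ)).exists_mem_open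
    ((ContinuousMap.isOpen_setOfPred_mapsTo h0 (isOpen_Iio (a := (0 : ℝ)))).inter
      (ContinuousMap.isOpen_setOfPred_mapsTo h1 (isOpen_Ioi (a := (1 : ℝ)))))
    ⟨(3 : ℝ) • f - 1, fun u hu => by simp [f0 hu], fun u hu => by simp [f1 hu]; norm_num⟩
  exact ⟨n, fun u hu => le_of_lt (hn0 hu), fun u hu => le_of_lt (hn1 hu)⟩

variable {X : Type}

def ev (y : ℕ → X) (f : X → ℝ) : ℕ → EReal := fun n => (f (y n) : EReal)

theorem ev_cont (y : ℕ → X) : Continuous (ev y) :=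
  continuous_pi fun n => continuous_coe_real_ereal.comp (continuous_apply (y n))

theorem coords [Nonempty X] {C0 C1 : Set (X → ℝ)} (h0 : IsCompact C0) (h1 : IsCompact C1)
    (hd : Disjoint C0 C1) : ∃ y : ℕ → X, Disjoint (ev y '' C0) (ev y '' C1) := by
  obtain ⟨t, ht⟩ := (h0.prod h1).elim_finite_subcover (fun x : X => {p | p.1 x ≠ p.2 x})
    (fun x => isOpen_ne_fun ((continuous_apply x).comp continuous_fst)
      ((continuous_apply x).comp continuous_snd)) (fun p hp => by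
      have : p.1 ≠ p.2 := fun e => disjoint_left.1 hd hp.1 (e ▸ hp.2)
      obtain ⟨x, hx⟩ := Function.ne_iff.1 this
      exact mem_iUnion.2 ⟨x, hx⟩)
  obtain ⟨y, hy⟩ := (t.countable_toSet.insert (Classical.arbitrary X)).exists_eq_range
    (insert_nonempty _ _)
  refine ⟨y, disjoint_left.2 ?_⟩
  rintro _ ⟨f, hf, rfl⟩ ⟨f', hf', e⟩
  obtain ⟨x, hx, hne⟩ := mem_iUnion₂.1 (ht (mk_mem_prod hf hf'))
  obtain ⟨n, rfl⟩ : x ∈ range y := hy ▸ mem_insert_of_mem _ hx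
  exact hne (EReal.coe_injective (congrFun e n)).symm

theorem Baire1.ev [TopologicalSpace X] {f : X → ℝ} (hf : Baire1 f) (θ : C(ℕ → EReal, ℝ))
    {Y : Type} [TopologicalSpace Y] {j : Y → ℕ → X} (hj : Continuous j) :
    Baire1 fun y => θ (ev (j y) f) := by
  obtain ⟨u, hu, hl⟩ := hf
  refine ⟨fun m y => θ (MP_b60a07_lc.ev (j y) (u m)), fun m => θ.continuous.comp (continuous_pi fun n =>
    continuous_coe_real_ereal.comp ((hu m).comp ((continuous_apply n).comp hj))), fun y => ?_⟩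
  exact (θ.continuous.comp (ev_cont (j y))).continuousAt.tendsto.comp (tendsto_pi_nhds.2 hl)

theorem refine_top {Y : Type} [t : TopologicalSpace Y] [PolishSpace Y] [Nonempty Y]
    (u : ℕ → Y → ℝ) (hu : ∀ n, Baire1 (u n)) :
    ∃ j : (ℕ → ℕ) → Y, Continuous j ∧ Function.Surjective j ∧ ∀ n, Continuous (u n ∘ j) := by
  borelize Y
  have hm : Measurable fun y n => u n y := measurable_pi_lambda _ fun n => by
    obtain ⟨v, hv, hl⟩ := hu n
    exact measurable_of_tendsto_metrizable (fun m => (hv m).measurable) (tendsto_pi_nhds.2 hl)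
  obtain ⟨t', ht', hc, hp⟩ := hm.exists_continuous
  obtain ⟨j, hj, hs⟩ := @PolishSpace.exists_nat_nat_continuous_surjective Y t' hp _
  refine ⟨j, continuous_le_rng ht' hj, hs, fun n => ?_⟩
  exact (continuous_apply n).comp (@Continuous.comp _ _ _ _ t' _ _ _ hc hj)

variable {K : Type} [TopologicalSpace K] [CompactSpace K] [T2Space K]
  [HereditarilyLindelofSpace K]

theorem can_univ (hS : SOCA) (hM : MA1) [TopologicalSpace X] [PolishSpace X] [Nonempty X]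
    {L : Set (X → ℝ)} (hL : IsCompact L) (hB : ∀ f ∈ L, Baire1 f) (φ : L → K)
    (hφ : Continuous φ) (hs : Function.Surjective φ) :
    Can (id : C(K, ℝ) → C(K, ℝ)) (id : K → K) (1 / 4) (3 / 4) univ univ := by
  classical
  intro z hz I hI β α _ _
  have : CompactSpace L := isCompact_iff_compactSpace.1 hL
  obtain ⟨i0, -⟩ : I.Nonempty := nonempty_iff_ne_empty.2 fun e => hI (e ▸ countable_empty)
  have : Nonempty K := ⟨α i0⟩
  obtain ⟨D, hD, hDd⟩ := separable (K := K) hM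
  obtain ⟨e, rfl⟩ := hD.exists_eq_range hDd.nonempty
  choose d hd using fun n => hs (e n)
  have lift : ∀ p : K, ∃ f ∈ closure (range d), φ f = p := fun p =>
    closure_minimal (t := φ '' closure (range d))
      (by rintro _ ⟨n, rfl⟩; exact ⟨d n, subset_closure ⟨n, rfl⟩, hd n⟩)
      (isClosed_closure.isCompact.image hφ).isClosed (hDd p)
  choose f hf1 hf2 using lift
  obtain ⟨θ, hθ⟩ := theta
  have par : ∀ g : C(K, ℝ), ∃ y : ℕ → X, ∃ n, ∀ f : L,
      (g (φ f) ≤ 1 / 3 → θ n (ev y f) ≤ 0) ∧ (2 / 3 ≤ g (φ f) → 1 ≤ θ n (ev y f)) := fun g => by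
    have c0 : IsCompact (Subtype.val '' {f : L | g (φ f) ≤ 1 / 3}) :=
      (isClosed_le (g.continuous.comp hφ) continuous_const).isCompact.image continuous_subtype_val
    have c1 : IsCompact (Subtype.val '' {f : L | 2 / 3 ≤ g (φ f)}) :=
      (isClosed_le continuous_const (g.continuous.comp hφ)).isCompact.image continuous_subtype_val
    obtain ⟨y, hy⟩ := coords c0 c1 (disjoint_image_of_injective Subtype.val_injective
      (disjoint_left.2 fun f (h0 : g (φ f) ≤ 1 / 3) (h1 : 2 / 3 ≤ g (φ f)) => by linarith))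
    obtain ⟨n, h0, h1⟩ := hθ _ _ (c0.image (ev_cont y)) (c1.image (ev_cont y)) hy
    exact ⟨y, n, fun f => ⟨fun h => h0 _ ⟨_, ⟨f, h, rfl⟩, rfl⟩, fun h => h1 _ ⟨_, ⟨f, h, rfl⟩, rfl⟩⟩⟩
  choose y hy using par
  obtain ⟨n, u1⟩ := unc_fiber hI _ fun i _ => hy (β i)
  obtain ⟨j, hj, hjs, hjc⟩ := refine_top (Y := ℕ → X) (fun k y => θ n (ev y (d k)))
    fun k => (hB _ (d k).2).ev (θ n) continuous_id
  choose w hw using fun i => hjs (y (β i))
  obtain ⟨g0, u2⟩ := bounded hM w u1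
  let Y0 : Set (ℕ → ℕ) := univ.pi fun m => Iic (g0 m)
  have : CompactSpace Y0 := isCompact_iff_compactSpace.1
    (isCompact_univ_pi fun m => (finite_Iic _).isCompact)
  have hev : ∀ v : Y0, Continuous fun f : L => θ n (ev (j v) f) := fun v =>
    (θ n).continuous.comp ((ev_cont _).comp continuous_subtype_val)
  obtain ⟨ρ, hρ, l, hl1, hl2⟩ := rank_bound (Y := Y0) (fun k v => θ n (ev (j v) (d k)))
    (fun k => (hjc k).comp continuous_subtype_val) (fun k => by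
      obtain ⟨f, -, hf⟩ := isCompact_univ.ultrafilter_le_nhds
        ((hyperfilter ℕ).map fun i => d (k i)) (by simp)
      exact ⟨fun v => θ n (ev (j v) f), (hB _ f.2).ev (θ n) (hj.comp continuous_subtype_val),
        fun v => (hev v).continuousAt.tendsto.comp hf⟩)
    (fun (i : O) v => θ n (ev (j v) (f (α i)))) (fun i S => by
      obtain ⟨_, h1, k, rfl⟩ := mem_closure_iff.1 (hf1 (α i))
        (⋂ v ∈ S, {f' : L | |θ n (ev (j v) (f (α i))) - θ n (ev (j v) f')| < 1 / 3})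
        (isOpen_biInter_finset fun v _ => isOpen_lt (continuous_const.sub (hev v)).abs
          continuous_const) (mem_iInter₂.2 fun v _ => by simp)
      exact ⟨k, fun v hv => mem_iInter₂.1 h1 v hv⟩)
  set I2 := {i ∈ {i ∈ I | ∀ f : L, (β i (φ f) ≤ 1 / 3 → θ n (ev (y (β i)) f) ≤ 0) ∧
    (2 / 3 ≤ β i (φ f) → 1 ≤ θ n (ev (y (β i)) f))} | ∀ m, w i m ≤ g0 m} with hI2
  obtain ⟨i1, hi1⟩ : I2.Nonempty := nonempty_iff_ne_empty.2 fun e => u2 (e ▸ countable_empty)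
  let v : I2 → Y0 := fun i => ⟨w i, fun m _ => i.2.2 m⟩
  have := (TopologicalSpace.countable_countableBasis Y0).to_subtype
  have hc := ind hS (g := fun i : I2 => β i) (x := α) (a := 1 / 3) (b := 2 / 3)
    (fun U : TopologicalSpace.countableBasis Y0 => {i | v i ∈ U.1}) (fun i k => l (v i) k) ρ hρ
    (fun i k => by
      obtain ⟨U, h1, h2, s, h3⟩ := hl2 (v i) k
      refine ⟨U, h1, fun i' hi' => h2 _ hi', s, fun i' hi' e => ?_⟩
      have h4 := h3 _ hi' e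
      have h5 := i'.2.1.2 (f (α k))
      rw [hf2, ← hw] at h5
      cases s
      · exact not_le.1 fun hh => not_lt.2 (h5.2 hh) h4
      · exact not_le.1 fun hh => not_lt.2 (h5.1 hh) h4)
    ρ le_rfl univ univ (fun _ _ _ _ => hl1 _ _) (1 / 4) (by norm_num) (3 / 4) (by norm_num)
  obtain ⟨J, k1, u3, s, hJ⟩ := hc z hz I2 u2 (fun i => if h : i ∈ I2 then ⟨i, h⟩ else ⟨i1, hi1⟩) id
    (fun _ _ => trivial) (fun _ _ => trivial)
  refine ⟨J, fun i hi => (k1 hi).1.1, u3, s, fun i hi k hk hlt => ?_⟩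
  simpa [k1 hi] using hJ i hi k hk hlt

omit [T2Space K] [HereditarilyLindelofSpace K] in
theorem two_to_one {U0 : Set C(K, ℝ)} (h0 : U0.Countable)
    (h : ∀ p y v : K, (∀ γ ∈ U0, γ y = γ p) → (∀ γ ∈ U0, γ v = γ p) → p = y ∨ p = v ∨ y = v) :
    ∃ (M : Type) (_ : TopologicalSpace M), CompactSpace M ∧ TopologicalSpace.MetrizableSpace M ∧
      ∃ g : K → M, Continuous g ∧ Function.Surjective g ∧ ∀ y, (g ⁻¹' {y}).encard ≤ 2 := by
  have := h0.to_subtype
  let π : K → (U0 → ℝ) := fun y γ => γ.1 y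
  have hπ : Continuous π := continuous_pi fun γ => γ.1.continuous
  refine ⟨range π, inferInstance, isCompact_iff_compactSpace.1 (isCompact_range hπ), inferInstance,
    rangeFactorization π, hπ.rangeFactorization, rangeFactorization_surjective, ?_⟩
  rintro ⟨_, p, rfl⟩
  have key : ∀ y ∈ rangeFactorization π ⁻¹' {⟨π p, p, rfl⟩}, ∀ γ ∈ U0, γ y = γ p :=
    fun y hy γ hγ => congrFun (congrArg Subtype.val hy) ⟨γ, hγ⟩
  by_cases hy : ∃ y ∈ rangeFactorization π ⁻¹' {⟨π p, p, rfl⟩}, y ≠ p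
  · obtain ⟨y, hy, hne⟩ := hy
    refine (encard_le_encard (t := {p, y}) fun v hv => ?_).trans (encard_pair hne.symm).le
    rcases h p y v (key y hy) (key v hv) with e | e | e
    · exact absurd e.symm hne
    · exact Or.inl e.symm
    · exact Or.inr e.symm
  · push Not at hy
    exact (encard_le_encard (t := {p}) hy).trans (by simp)

omit [T2Space K] [HereditarilyLindelofSpace K] in
theorem hl_of_perfect [PerfectlyNormalSpace K] : HereditarilyLindelofSpace K := by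
  refine HereditarilyLindelofSpace.of_forall_isOpen fun s hs => ?_
  obtain ⟨T, hT, hTc, e⟩ := hs.isClosed_compl.isGδ
  have : s = ⋃ t ∈ T, tᶜ := by
    rw [← compl_compl s, e, compl_sInter, sUnion_image]
  rw [this]
  exact hTc.isLindelof_biUnion fun t ht => (hT t ht).isClosed_compl.isCompact.isLindelof

theorem main (hS : SOCA) (hM : MA1) [TopologicalSpace X] [PolishSpace X]
    {L : Set (X → ℝ)} (hL : IsCompact L) (hB : ∀ f ∈ L, Baire1 f) (φ : L → K)
    (hφ : Continuous φ) (hs : Function.Surjective φ) :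
    ∃ (M : Type) (_ : TopologicalSpace M), CompactSpace M ∧ TopologicalSpace.MetrizableSpace M ∧
      ∃ g : K → M, Continuous g ∧ Function.Surjective g ∧ ∀ y, (g ⁻¹' {y}).encard ≤ 2 := by
  rcases isEmpty_or_nonempty X with hX | hX
  · have : Subsingleton K := hs.subsingleton
    exact two_to_one countable_empty fun p y v _ _ => Or.inl (Subsingleton.elim _ _)
  obtain ⟨U0, h0, h⟩ := triangle (can_univ hS hM hL hB φ hφ hs)
  refine two_to_one h0 fun p y v h1 h2 => ?_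
  by_contra hn
  push Not at hn
  obtain ⟨g, g0, g1, -⟩ := exists_continuous_zero_one_of_isClosed (isClosed_singleton (x := p))
    (isClosed_singleton (x := y)) (disjoint_singleton.2 hn.1)
  obtain ⟨g', g0', g1', -⟩ := exists_continuous_zero_one_of_isClosed
    (toFinite ({p, y} : Set K)).isClosed (isClosed_singleton (x := v))
    (disjoint_singleton_right.2 (by simp [hn.2.1.symm, hn.2.2.symm]))
  refine h p trivial g trivial g' trivial y v h1 h2 ?_ ?_ ?_ ?_ ?_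
  · simp [g0 (mem_singleton p)]
  · simp [g1 (mem_singleton y)]; norm_num
  · simp [g0' (mem_insert p {y})]
  · simp [g0' (mem_insert_of_mem p (mem_singleton y))]
  · simp [g1' (mem_singleton v)]; norm_num

end Pool.Agent.MP_b60a07_lc

end MrgPart4

-- marker of a merged file
example : 731051 + 165927 = 731051 + 165927 := rfl
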