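import Mathlib
import Pool.Agent.MP_b60a07_lc.Main

namespace Pool.Agent.MP_b60a07_lc.RosenthalImages

open Pool.Agent.MP_b60a07_lc

theorem result (hS : SOCA) (hM : MA1)
    (X : Type) [TopologicalSpace X] [PolishSpace X]
    (L : Set (X → ℝ)) (hL : IsCompact L) (hB : ∀ f ∈ L, Baire1 f)
    (K : Type) [TopologicalSpace K] [CompactSpace K] [T2Space K] [PerfectlyNormalSpace K]
    (φ : L → K) (hφ : Continuous φ) (hs : Function.Surjective φ) :
    ∃ (M : Type) (_ : TopologicalSpace M), CompactSpace M ∧ TopologicalSpace.MetrizableSpace M ∧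
      ∃ g : K → M, Continuous g ∧ Function.Surjective g ∧ ∀ y, (g ⁻¹' {y}).encard ≤ 2 :=
  haveI : HereditarilyLindelofSpace K := hl_of_perfect
  main hS hM hL hB φ hφ hs

end Pool.Agent.MP_b60a07_lc.RosenthalImages
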